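import Pool.Agent.R773.HN.Fin3
import Pool.Agent.R773.HN.Defs2
import Pool.Agent.R773.HN.Defs3

/-!
# Elements which are central modulo the smallest normal subgroup
-/

set_option autoImplicit false

open Set Filter Topology Function
open Pool.Agent.Y453.HB Pool.Agent.R773.HN
open scoped commutatorElement

namespace Pool.Agent.U503.CEN

variable {n : ℕ}

/-- the elements of `Γ` supported in balls of radius at most `ε` inside `B` -/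
def sm (Γ : Subgroup (E n ≃ₜ E n)) (ε : ℝ) : Set (E n ≃ₜ E n) :=
  {v | v ∈ Γ ∧ ∃ (q : E n) (s : ℝ), 0 < s ∧ s ≤ ε ∧ nm q + s < 1 ∧ Supp (D q s) v}

/-- `g` agrees with a Hamiltonian diffeomorphism off an arbitrarily small ball -/
def Alm (g : E n ≃ₜ E n) : Prop :=
  ∀ ε : ℝ, 0 < ε → ∃ u : E n ≃ₜ E n, IsHam u ∧ ∃ (q : E n) (s : ℝ), 0 < s ∧ s ≤ ε ∧
    nm q + s < 1 ∧ ∀ x, x ∉ D q s → g x = u x

theorem moveTo (hT : S_TRANS) {Γ N : Subgroup (E n ≃ₜ E n)} (hΓ : Mid Γ) {r : ℝ} (hr1 : r < 1)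
    (hA : ∀ q : E n, nm q + r < 1 → ∀ f ∈ Γ, ∀ g ∈ Γ,
      Supp (D q r) f → Supp (D q r) g → ⁅f, g⁆ ∈ N) {u : E n ≃ₜ E n} (hu : u ∈ Γ) {p : E n}
    {ε : ℝ} (hε : 0 < ε) (hεr : ε < r) (hus : Supp (D 0 ε) u) (h2 : nm p + ε < 1) :
    ∃ w ∈ Γ, Supp (D p ε) w ∧ u * w⁻¹ ∈ N := by
  obtain ⟨m, hm⟩ := exists_nat_gt (nm p / min (r - ε) (1 - ε - nm p))
  have hmin : 0 < min (r - ε) (1 - ε - nm p) := lt_min (by linarith) (by linarith)
  have hm0 : (0 : ℝ) < m := (div_nonneg (nm_nonneg p) hmin.le).trans_lt hm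
  have hv : nm p / m < min (r - ε) (1 - ε - nm p) := by
    rw [div_lt_iff₀ hmin] at hm
    rw [div_lt_iff₀ hm0]
    linarith
  have hv1 := hv.trans_le (min_le_left _ _)
  have key : ∀ k : ℕ, k ≤ m → ∃ w ∈ Γ, Supp (D (((k : ℝ) / m) • p) ε) w ∧ u * w⁻¹ ∈ N := by
    intro k
    induction k with
    | zero =>
      intro _
      refine ⟨u, hu, ?_, by rw [mul_inv_cancel]; exact N.one_mem⟩
      simpa using hus
    | succ k ih =>
      intro hk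
      obtain ⟨w, hw, hws, hwN⟩ := ih (by omega)
      have hkm : ((k : ℝ) + 1) / m ≤ 1 := by
        rw [div_le_one hm0]
        exact_mod_cast hk
      have hnv : nm ((1 / (m : ℝ)) • p) = nm p / m := by
        rw [nm_smul, abs_of_pos (by positivity)]
        ring
      have hnq : nm (((k : ℝ) / m) • p) + nm p / m ≤ nm p := by
        rw [nm_smul, abs_of_nonneg (by positivity)]
        have e : (k : ℝ) / m * nm p + nm p / m = ((k : ℝ) + 1) / m * nm p := by ring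
        rw [e]
        exact mul_le_of_le_one_left (nm_nonneg p) hkm
      obtain ⟨w', hw', hws', hwN'⟩ := move1 hT hΓ hr1 hA hw (v := (1 / (m : ℝ)) • p) hε hws
        (by rw [hnv]; linarith) (by rw [hnv]; linarith)
      refine ⟨w', hw', ?_, ?_⟩
      · have e : ((k : ℝ) / m) • p + (1 / (m : ℝ)) • p = (((k + 1 : ℕ) : ℝ) / m) • p := by
          rw [← add_smul]
          congr 1
          push_cast
          ring
        rwa [e] at hws'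
      · have := N.mul_mem hwN hwN'
        have e : u * w⁻¹ * (w * w'⁻¹) = u * w'⁻¹ := by group
        rwa [e] at this
  obtain ⟨w, hw, hws, hwN⟩ := key m le_rfl
  refine ⟨w, hw, ?_, hwN⟩
  rw [div_self hm0.ne', one_smul] at hws
  exact hws

/-- an element which fixes a ball, and a product of elements supported in balls of that size -/
theorem commA (hn : 0 < n) {Γ : Subgroup (E n ≃ₜ E n)} (hΓ : Mid Γ) {f g : E n ≃ₜ E n}
    (hf : f ∈ Γ) {p : E n} {ρ : ℝ} (hρ : 0 < ρ) (hρ2 : ρ < 1 / 2) (hp : nm p + ρ < 1)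
    (hfp : ∀ x ∈ D p ρ, f x = x) (hg : g ∈ Subgroup.closure (sm Γ ρ)) : ⁅f, g⁆ ∈ Mono Γ := by
  have hN := Mono_norm Γ
  obtain ⟨r, hr⟩ : ∃ r, r = (ρ + 1 / 2) / 2 := ⟨_, rfl⟩
  have hA : ∀ q : E n, nm q + r < 1 → ∀ f ∈ Γ, ∀ g ∈ Γ,
      Supp (D q r) f → Supp (D q r) g → ⁅f, g⁆ ∈ Mono Γ := fun q hq f hf g hg hfs hgs =>
    comm_ball hT hR hn hΓ (by linarith) (by linarith) hq hf hg hfs hgs
  have h1 : ∀ u ∈ Subgroup.closure (sm Γ ρ), ∃ w ∈ Γ, Supp (D p ρ) w ∧ w⁻¹ * u ∈ Mono Γ := by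
    intro u hu
    induction hu using Subgroup.closure_induction with
    | mem u hu =>
      obtain ⟨huΓ, q, s, a, b, c, d⟩ := hu
      obtain ⟨w, hw, hws, hwN⟩ := move hT hΓ (by linarith) hA huΓ a (by linarith) d c
      obtain ⟨w', hw', hws', hwN'⟩ := moveTo hT hΓ (by linarith) hA hw (p := p) a (by linarith)
        hws (by linarith)
      refine ⟨w', hw', hws'.mono fun x hx => le_trans hx b, ?_⟩
      have h2 := (Mono Γ).mul_mem hwN hwN'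
      have h3 := hN.2 _ (Γ.inv_mem hw') _ h2
      have e : w'⁻¹ * (u * w⁻¹ * (w * w'⁻¹)) * w'⁻¹⁻¹ = w'⁻¹ * u := by group
      rwa [e] at h3
    | one => exact ⟨1, Γ.one_mem, Supp.one _, by rw [mul_one, inv_one]; exact (Mono Γ).one_mem⟩
    | mul x y _ _ hx hy =>
      obtain ⟨w, hw, hws, hwN⟩ := hx
      obtain ⟨w', hw', hws', hwN'⟩ := hy
      refine ⟨w * w', Γ.mul_mem hw hw', hws.mul hws', ?_⟩
      have h2 := (Mono Γ).mul_mem (hN.2 _ (Γ.inv_mem hw') _ hwN) hwN'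
      have e : w'⁻¹ * (w⁻¹ * x) * w'⁻¹⁻¹ * (w'⁻¹ * y) = (w * w')⁻¹ * (x * y) := by group
      rwa [e] at h2
    | inv x _ hx =>
      obtain ⟨w, hw, hws, hwN⟩ := hx
      refine ⟨w⁻¹, Γ.inv_mem hw, hws.inv, ?_⟩
      have h2 := (Mono Γ).inv_mem (hN.2 _ hw _ hwN)
      have e : (w * (w⁻¹ * x) * w⁻¹)⁻¹ = w⁻¹⁻¹ * x⁻¹ := by group
      rwa [e] at h2
  obtain ⟨w, hw, hws, hwN⟩ := h1 g hg
  have hc : f * w = w * f := Supp.commute (A := (D p ρ)ᶜ) (B := D p ρ)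
    disjoint_compl_left (fun x hx => hfp x (by simpa using hx)) hws
  obtain ⟨s, hs⟩ : ∃ s, s = w⁻¹ * g := ⟨_, rfl⟩
  rw [← hs] at hwN
  have hl' : g = w * s := by rw [hs]; group
  have h2 : ⁅f, s⁆ ∈ Mono Γ := by
    rw [commutatorElement_def]
    exact (Mono Γ).mul_mem (hN.2 f hf s hwN) ((Mono Γ).inv_mem hwN)
  have h3 := hN.2 w hw _ h2
  have e : ⁅f, g⁆ = w * ⁅f, s⁆ * w⁻¹ := by
    rw [hl', commutatorElement_def, commutatorElement_def, mul_inv_rev]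
    calc f * (w * s) * f⁻¹ * (s⁻¹ * w⁻¹) = (f * w) * s * f⁻¹ * (s⁻¹ * w⁻¹) := by group
      _ = (w * f) * s * f⁻¹ * (s⁻¹ * w⁻¹) := by rw [hc]
      _ = _ := by group
  rwa [e]

/-- each element is the identity on some ball -/
theorem fixes_ball (hn : 0 < n) {f : E n ≃ₜ E n} (hf : f ∈ HamBar n) :
    ∃ (p : E n) (ρ : ℝ), 0 < ρ ∧ ρ < 1 / 2 ∧ nm p + ρ < 1 ∧ ∀ x ∈ D p ρ, f x = x := by
  obtain ⟨K, hK, hK1, hK2⟩ := cpt_supp hf
  obtain ⟨s, hs0, hs1, hs⟩ : ∃ s : ℝ, 0 ≤ s ∧ s < 1 ∧ ∀ x ∈ K, nm x ≤ s := by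
    rcases K.eq_empty_or_nonempty with h | h
    · exact ⟨0, le_rfl, one_pos, fun x hx => by rw [h] at hx; exact absurd hx (notMem_empty x)⟩
    · obtain ⟨a, ha, hmax⟩ := hK.exists_isMaxOn h nm_cont.continuousOn
      exact ⟨nm a, nm_nonneg a, nm_lt_one (hK1 ha), fun x hx => hmax hx⟩
  obtain ⟨p, hp⟩ := exists_vec hn (show 0 < (1 + s) / 2 by linarith)
  refine ⟨p, (1 - s) / 4, by linarith, by linarith, by linarith, fun x hx => hK2 x fun hxK => ?_⟩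
  have h1 : nm (x - p) ≤ (1 - s) / 4 := hx
  have h2 := hs x hxK
  have h3 := nm_add x (p - x)
  rw [add_sub_cancel, nm_sub_comm] at h3
  linarith

theorem alm_mem {Γ : Subgroup (E n ≃ₜ E n)} (hΓ : Mid Γ) {g : E n ≃ₜ E n} (hg : g ∈ Γ)
    (h : Alm g) {ε : ℝ} (hε : 0 < ε) (hε1 : ε < 1) : g ∈ Subgroup.closure (sm Γ ε) := by
  obtain ⟨u, hu, q, s, h0, h1, h2, h3⟩ := h ε hε
  have hsub : small n ε ⊆ sm Γ ε := by
    rintro v ⟨hv, q, s, a, b, c, d⟩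
    exact ⟨hΓ.ham v hv, q, s, a, b, c, d⟩
  have hu1 : u ∈ Subgroup.closure (sm Γ ε) := Subgroup.closure_mono hsub (hFr n u hu ε hε hε1)
  have hu2 : u⁻¹ * g ∈ sm Γ ε := by
    refine ⟨Γ.mul_mem (Γ.inv_mem (hΓ.ham u hu)) hg, q, s, h0, h1, h2, fun x hx => ?_⟩
    rw [mul_apply, h3 x hx, inv_apply_self]
  have := (Subgroup.closure (sm Γ ε)).mul_mem hu1 (Subgroup.subset_closure hu2)
  rwa [mul_inv_cancel_left] at this

theorem alm_central (hn : 0 < n) {Γ : Subgroup (E n ≃ₜ E n)} (hΓ : Mid Γ) {f g : E n ≃ₜ E n}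
    (hf : f ∈ Γ) (hg : g ∈ Γ) (h : Alm g) : ⁅f, g⁆ ∈ Mono Γ := by
  obtain ⟨p, ρ, h1, h2, h3, h4⟩ := fixes_ball hn (hΓ.le hf)
  exact commA hn hΓ hf h1 h2 h3 h4 (alm_mem hΓ hg h h1 (by linarith))

theorem ham_alm {g : E n ≃ₜ E n} (hg : IsHam g) : Alm g := by
  intro ε hε
  refine ⟨g, hg, 0, min ε (1 / 2), lt_min hε (by norm_num), min_le_left _ _, ?_, fun _ _ => rfl⟩
  rw [nm_zero]
  have := min_le_right ε (1 / 2 : ℝ)
  linarith

theorem twist_alm (hn : 0 < n) {r : ℝ} (hr : 0 < r) (hr1 : r < 1) {G : (Fin n → ℝ) → ℝ}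
    (hG : G ∈ Prof n r) {g : E n ≃ₜ E n} (hg : ∀ z, g z = tw G z) : Alm g := by
  intro ε hε
  obtain ⟨s, hs⟩ : ∃ s, s = min ε (1 / 2 : ℝ) := ⟨_, rfl⟩
  have hs0 : 0 < s := by rw [hs]; exact lt_min hε (by norm_num)
  have hs1 : s ≤ ε := by rw [hs]; exact min_le_left _ _
  have hs2 : s ≤ 1 / 2 := by rw [hs]; exact min_le_right _ _
  have hn' : (0 : ℝ) < n := by exact_mod_cast hn
  obtain ⟨F, hF1, hF2, hF3⟩ := Tw2.cut hG.1 (show 0 < s ^ 2 / (2 * n) by positivity)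
  obtain ⟨u, hu1, hu2, hu3⟩ := tw1 n F hF1 r hr hr1 fun a ha => hF2 a (hG.2 a ha)
  refine ⟨u, hu1, 0, s, hs0, hs1, by rw [nm_zero]; linarith, fun z hz => ?_⟩
  rw [hg z, hu3 z]
  have h1 : s < nm z := by
    have h2 : ¬ nm (z - 0) ≤ s := hz
    rw [sub_zero] at h2
    exact not_le.1 h2
  have h2 : s ^ 2 < Q z := by
    unfold nm at h1
    rwa [Real.lt_sqrt hs0.le] at h1
  have h3 : Q z ≤ n * ‖act z‖ := by
    rw [← Tw2.sum_act]
    calc ∑ j, act z j ≤ ∑ _j : Fin n, ‖act z‖ := Finset.sum_le_sum fun j _ =>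
          (le_abs_self _).trans (norm_le_pi_norm (act z) j)
      _ = n * ‖act z‖ := by rw [Finset.sum_const, Finset.card_univ, Fintype.card_fin, nsmul_eq_mul]
  have h4 : s ^ 2 / (2 * n) < ‖act z‖ := by
    rw [div_lt_iff₀ (by positivity)]
    nlinarith [norm_nonneg (act z)]
  unfold tw
  rw [Tw2.ang_congr (hF3 _ h4)]

/-- from `Mono Γ` to the normal subgroups of `Γ` -/
theorem mono_mem {Γ : Subgroup (E n ≃ₜ E n)} {N : Subgroup Γ} (hN : N.Normal) (hne : N ≠ ⊥)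
    {x : Γ} (hx : (x : E n ≃ₜ E n) ∈ Mono Γ) : x ∈ N := by
  have h3 : NormIn Γ (N.map Γ.subtype) := by
    refine ⟨?_, ?_⟩
    · rintro _ ⟨x, -, rfl⟩
      exact x.2
    · rintro g hg _ ⟨x, hx, rfl⟩
      exact ⟨⟨g, hg⟩ * x * ⟨g, hg⟩⁻¹, hN.conj_mem x hx ⟨g, hg⟩, rfl⟩
  have h4 : N.map Γ.subtype ≠ ⊥ := by
    intro h
    apply hne
    rw [eq_bot_iff]
    intro x hx
    have h5 : (x : E n ≃ₜ E n) ∈ N.map Γ.subtype := ⟨x, hx, rfl⟩
    rw [h, Subgroup.mem_bot] at h5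
    rw [Subgroup.mem_bot]
    exact Subtype.ext h5
  obtain ⟨y, hy, hyx⟩ := Mono_le h3 h4 hx
  have h6 : y = x := Subtype.ext hyx
  rwa [← h6]

theorem sm_eq (Γ : Subgroup (E n ≃ₜ E n)) (ε : ℝ) : sm Γ ε = Γ.subtype '' (SmS Γ ε) := by
  ext v
  constructor
  · rintro ⟨hv, q, s, a, b, c, d⟩
    exact ⟨⟨v, hv⟩, ⟨q, s, a, b, c, d⟩, rfl⟩
  · rintro ⟨w, ⟨q, s, a, b, c, d⟩, rfl⟩
    exact ⟨w.2, q, s, a, b, c, d⟩

theorem mem_sm_iff {Γ : Subgroup (E n ≃ₜ E n)} {ε : ℝ} {g : Γ} :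
    (g : E n ≃ₜ E n) ∈ Subgroup.closure (sm Γ ε) ↔ g ∈ Subgroup.closure (SmS Γ ε) := by
  rw [sm_eq, ← MonoidHom.map_closure]
  constructor
  · rintro ⟨y, hy, hyg⟩
    have h : y = g := Subtype.ext hyg
    rwa [← h]
  · intro h
    exact ⟨g, h, rfl⟩

theorem commA' (hn : 0 < n) {Γ : Subgroup (E n ≃ₜ E n)} (hΓ : Mid Γ) {N : Subgroup Γ}
    (hN : N.Normal) (hne : N ≠ ⊥) {f g : Γ} {p : E n} {ρ : ℝ} (hρ : 0 < ρ) (hρ2 : ρ < 1 / 2)
    (hp : nm p + ρ < 1) (hfp : ∀ x ∈ D p ρ, (f : E n ≃ₜ E n) x = x)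
    (hg : g ∈ Subgroup.closure (SmS Γ ρ)) : ⁅f, g⁆ ∈ N :=
  mono_mem hN hne (commA hn hΓ f.2 hρ hρ2 hp hfp (mem_sm_iff.2 hg))

theorem alm_mem' {Γ : Subgroup (E n ≃ₜ E n)} (hΓ : Mid Γ) {g : Γ}
    (h : Alm (g : E n ≃ₜ E n)) {ε : ℝ} (hε : 0 < ε) : g ∈ Subgroup.closure (SmS Γ ε) := by
  have h1 := mem_sm_iff.1 (alm_mem hΓ g.2 h (lt_min hε (by norm_num : (0 : ℝ) < 1 / 2))
    ((min_le_right _ _).trans_lt (by norm_num)))
  refine Subgroup.closure_mono ?_ h1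
  rintro v ⟨q, s, a, b, c, d⟩
  exact ⟨q, s, a, b.trans (min_le_left _ _), c, d⟩

end Pool.Agent.U503.CEN
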